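import Mathlib

/-!
# Binomials over finite fields: irreducibility and counting
-/

set_option autoImplicit false

namespace Pool.Agent.K3h23.GF

open Polynomial

universe u

section irr

variable {κ : Type u} [Field κ] [Finite κ]

/-- `u` generates `κˣ` modulo `n`-th powers -/
def GenPow (κ : Type u) [Field κ] (n : ℕ) : Set κ :=
  {u | u ≠ 0 ∧ ∀ l : ℕ, l.Prime → l ∣ n → u ^ ((Nat.card κ - 1) / l) ≠ 1}

theorem dvd_natDegree (n : ℕ) (hn0 : n ≠ 0) (hn : n ∣ Nat.card κ - 1) (u : κ)
    (hu : u ∈ GenPow κ n) (h : κ[X]) (hh : Irreducible h) (hd : h ∣ X ^ n - C u) :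
    n ∣ h.natDegree := by
  classical
  have : Fact (Irreducible h) := ⟨hh⟩
  set q := Nat.card κ with hq
  have hq1 : 1 < q := Finite.one_lt_card
  set d := h.natDegree with hdd
  let pb := AdjoinRoot.powerBasis hh.ne_zero
  have hfd : FiniteDimensional κ (AdjoinRoot h) := pb.finite
  have hfin : Finite (AdjoinRoot h) := Module.finite_of_finite κ
  have hcard : Nat.card (AdjoinRoot h) = q ^ d := by
    rw [Module.natCard_eq_pow_finrank (K := κ), pb.finrank, AdjoinRoot.powerBasis_dim hh.ne_zero]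
  set θ := AdjoinRoot.root h with hθ
  set uE := AdjoinRoot.of h u with huE
  have hθn : θ ^ n = uE := by
    have h1 : aeval θ (X ^ n - C u) = 0 := by
      obtain ⟨r, hr⟩ := hd
      rw [hr, map_mul, AdjoinRoot.aeval_eq, AdjoinRoot.mk_self, zero_mul]
    rw [map_sub, map_pow, aeval_X, aeval_C, sub_eq_zero] at h1
    exact h1
  have huE0 : uE ≠ 0 := by
    rw [huE, Ne, map_eq_zero]
    exact hu.1
  have hθ0 : θ ≠ 0 := by
    intro h0
    rw [h0, zero_pow hn0] at hθn
    exact huE0 hθn.symm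
  have hθq : θ ^ (q ^ d - 1) = 1 := by
    have h1 := pow_card_eq_one' (G := (AdjoinRoot h)ˣ) (x := Units.mk0 θ hθ0)
    rw [Nat.card_units, hcard] at h1
    have h2 := congrArg Units.val h1
    simpa using h2
  have huq : uE ^ (q - 1) = 1 := by
    have hu0 : u ≠ 0 := hu.1
    have h1 := pow_card_eq_one' (G := κˣ) (x := Units.mk0 u hu0)
    rw [Nat.card_units] at h1
    have h2 := congrArg Units.val h1
    have h3 : u ^ (q - 1) = 1 := by simpa using h2
    rw [huE, ← map_pow, h3, map_one]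
  set S := ∑ i ∈ Finset.range d, q ^ i with hS
  have hqS : q ^ d - 1 = (q - 1) * S := by
    have h1 := Nat.geomSum_eq (m := q) hq1 d
    have h2 : (q - 1) ∣ q ^ d - 1 := by
      simpa using Nat.sub_dvd_pow_sub_pow q 1 d
    rw [hS, h1, Nat.mul_div_cancel' h2]
  have hqn : q ≡ 1 [MOD n] := ((Nat.modEq_iff_dvd' hq1.le).2 hn).symm
  have hSd : S ≡ d [MOD n] := by
    have h1 : ∀ e : ℕ, ∑ i ∈ Finset.range e, q ^ i ≡ e [MOD n] := by
      intro e
      induction e with
      | zero => simp [Nat.ModEq.refl]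
      | succ e ih =>
        rw [Finset.sum_range_succ]
        have h2 : q ^ e ≡ 1 [MOD n] := by simpa using hqn.pow e
        exact ih.add h2
    exact h1 d
  set ζ := θ ^ (q - 1) with hζ
  have hζn : ζ ^ n = 1 := by
    rw [hζ, ← pow_mul, mul_comm, pow_mul, hθn, huq]
  have hζS : ζ ^ S = 1 := by
    rw [hζ, ← pow_mul, ← hqS, hθq]
  have hζd : ζ ^ d = 1 := by
    rw [← hζS]
    exact (pow_eq_pow_of_modEq hSd hζn).symm
  set e := Nat.gcd d n with he
  have hζe : ζ ^ e = 1 := by
    rw [he]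
    exact pow_gcd_eq_one.2 ⟨hζd, hζn⟩
  have hen : e ∣ n := Nat.gcd_dvd_right _ _
  have hed : e ∣ d := Nat.gcd_dvd_left _ _
  by_contra hnd
  obtain ⟨r, hr⟩ := hen
  have he0 : e ≠ 0 := by
    rintro h0
    rw [h0, zero_mul] at hr
    exact hn0 hr
  have hr1 : r ≠ 1 := by
    rintro rfl
    rw [mul_one] at hr
    exact hnd (hr ▸ hed)
  obtain ⟨l, hl, hlr⟩ := Nat.exists_prime_and_dvd hr1
  obtain ⟨t, ht⟩ := hlr
  obtain ⟨s, hs⟩ := hn
  apply hu.2 l hl ⟨e * t, by rw [hr, ht]; ring⟩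
  have e1 : (q - 1) / l = s * e * t := by
    rw [hs, hr, ht]
    rw [show e * (l * t) * s = l * (s * e * t) by ring]
    exact Nat.mul_div_cancel_left _ hl.pos
  rw [← hq, e1]
  have e2 : uE ^ (s * e) = 1 := by
    rw [← hθn, ← pow_mul, ← mul_assoc, ← hs, pow_mul, ← hζ, hζe]
  have e3 : uE ^ (s * e * t) = 1 := by rw [pow_mul, e2, one_pow]
  apply (AdjoinRoot.of h).injective
  rw [map_pow, map_one]
  exact e3

theorem irreducible_binom (n : ℕ) (hn0 : n ≠ 0) (hn : n ∣ Nat.card κ - 1) (u : κ)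
    (hu : u ∈ GenPow κ n) : Irreducible (X ^ n - C u : κ[X]) := by
  classical
  have hdeg : (X ^ n - C u : κ[X]).natDegree = n := natDegree_X_pow_sub_C
  have hm : (X ^ n - C u : κ[X]).Monic := monic_X_pow_sub_C u hn0
  have hnu : ¬ IsUnit (X ^ n - C u : κ[X]) := by
    intro h
    have := natDegree_eq_zero_of_isUnit h
    rw [hdeg] at this
    exact hn0 this
  obtain ⟨h, hh, hd⟩ := WfDvdMonoid.exists_irreducible_factor hnu hm.ne_zero
  have h1 := dvd_natDegree n hn0 hn u hu h hh hd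
  have h2 : h.natDegree ≤ n := by
    rw [← hdeg]
    exact natDegree_le_of_dvd hd hm.ne_zero
  have h3 : h.natDegree = n := le_antisymm h2 (Nat.le_of_dvd (Irreducible.natDegree_pos hh) h1)
  have h4 : Associated h (X ^ n - C u) := by
    obtain ⟨r, hr⟩ := hd
    have hr0 : r ≠ 0 := by
      rintro rfl
      rw [mul_zero] at hr
      exact hm.ne_zero hr
    have h5 : r.natDegree = 0 := by
      have h6 := congrArg natDegree hr
      rw [hdeg, natDegree_mul hh.ne_zero hr0, h3] at h6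
      omega
    have h6 : IsUnit r := by
      rw [isUnit_iff_degree_eq_zero, degree_eq_natDegree hr0, h5]
      rfl
    obtain ⟨w, hw⟩ := h6
    exact ⟨w, by rw [hw, ← hr]⟩
  exact h4.irreducible hh

/-- the number of generators modulo `n`-th powers -/
theorem genPow_card (n : ℕ) (hn0 : n ≠ 0) (hn : n ∣ Nat.card κ - 1) :
    Nat.card κ - 1 ≤ n * (GenPow κ n).ncard := by
  classical
  have := Fintype.ofFinite κ
  have hcu : Nat.card κˣ = Nat.card κ - 1 := Nat.card_units κ
  obtain ⟨g, hg⟩ := IsCyclic.exists_generator (α := κˣ)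
  have hord : orderOf g = Nat.card κ - 1 := by
    rw [← hcu]
    exact orderOf_eq_card_of_forall_mem_zpowers hg
  set h : κˣ →* κˣ := powMonoidHom n with hh
  have h1 : Nat.card h.range * Nat.card h.ker = Nat.card κˣ := by
    rw [← Subgroup.index_ker, Subgroup.index_mul_card]
  have h2 : Nat.card h.ker ≤ n := by
    have : NeZero n := ⟨hn0⟩
    have h3 : h.ker = rootsOfUnity n κ := by
      ext x
      rw [MonoidHom.mem_ker, mem_rootsOfUnity]
      rfl
    rw [h3]
    exact card_rootsOfUnity κ n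
  have h3 : Nat.card h.range ≤ (GenPow κ n).ncard := by
    rw [← Nat.card_coe_set_eq]
    refine Nat.card_le_card_of_injective
      (fun w : h.range => (⟨((g * (w : κˣ) : κˣ) : κ), ?_⟩ : GenPow κ n)) ?_
    · refine ⟨Units.ne_zero _, ?_⟩
      intro l hl hln hone
      obtain ⟨w, z, hz⟩ := w
      simp only at hone
      have e1 : (g * w) ^ ((Nat.card κ - 1) / l) = 1 := by
        apply Units.ext
        rw [Units.val_pow_eq_pow_val, hone, Units.val_one]
      have hlq : l ∣ Nat.card κ - 1 := hln.trans hn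
      have e2 : w ^ ((Nat.card κ - 1) / l) = 1 := by
        obtain ⟨t, ht⟩ := hln
        obtain ⟨s, hs⟩ := hlq
        have e3 : z ^ n = w := hz
        rw [← e3, ← pow_mul, ht]
        rw [hs, Nat.mul_div_cancel_left _ hl.pos, show l * t * s = (l * s) * t by ring, ← hs, ← hcu,
          pow_mul, pow_card_eq_one', one_pow]
      rw [mul_pow, e2, mul_one] at e1
      have e4 := orderOf_dvd_of_pow_eq_one e1
      rw [hord] at e4
      have hpos : 0 < Nat.card κ - 1 := by
        have : 1 < Nat.card κ := Finite.one_lt_card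
        omega
      have e5 : 0 < (Nat.card κ - 1) / l := Nat.div_pos (Nat.le_of_dvd hpos hlq) hl.pos
      have e6 := Nat.le_of_dvd e5 e4
      have e7 : (Nat.card κ - 1) / l < Nat.card κ - 1 := Nat.div_lt_self hpos hl.one_lt
      omega
    · intro w w' hww
      have e1 := congrArg Subtype.val hww
      simp only at e1
      have e2 : g * (w : κˣ) = g * (w' : κˣ) := Units.ext e1
      exact Subtype.ext (mul_left_cancel e2)
  calc Nat.card κ - 1 = Nat.card h.range * Nat.card h.ker := by rw [h1, hcu]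
    _ ≤ (GenPow κ n).ncard * n := Nat.mul_le_mul h3 h2
    _ = n * (GenPow κ n).ncard := mul_comm _ _

/-- the good pairs of coefficients -/
def QG (κ : Type u) [Field κ] (n : ℕ) : Set (κ × κ) :=
  {x | x.1 ≠ 0 ∧ x.2 / x.1 ∈ GenPow κ n}

theorem QG_card (n : ℕ) (hn0 : n ≠ 0) (hn : n ∣ Nat.card κ - 1) :
    (Nat.card κ - 1) ^ 2 ≤ n * (QG κ n).ncard := by
  classical
  have := Fintype.ofFinite κ
  have h1 := genPow_card (κ := κ) n hn0 hn
  have h2 : ((Set.univ \ {0} : Set κ) ×ˢ (GenPow κ n)).ncard ≤ (QG κ n).ncard := by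
    refine Set.ncard_le_ncard_of_injOn (fun x : κ × κ => (x.1, x.1 * x.2)) ?_ ?_ (Set.toFinite _)
    · rintro ⟨b, c⟩ ⟨hb, hc⟩
      have hb0 : b ≠ 0 := hb.2
      refine ⟨hb0, ?_⟩
      change b * c / b ∈ GenPow κ n
      rwa [mul_div_cancel_left₀ _ hb0]
    · rintro ⟨b, c⟩ ⟨hb, hc⟩ ⟨b', c'⟩ ⟨hb', hc'⟩ h
      simp only [Prod.mk.injEq] at h
      obtain ⟨rfl, h⟩ := h
      have hb0 : b ≠ 0 := hb.2
      rw [mul_right_inj' hb0] at h
      rw [h]
  rw [Set.ncard_prod, Set.ncard_sdiff (Set.subset_univ _), Set.ncard_univ, Set.ncard_singleton] at h2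
  calc (Nat.card κ - 1) ^ 2 = (Nat.card κ - 1) * (Nat.card κ - 1) := sq _
    _ ≤ (Nat.card κ - 1) * (n * (GenPow κ n).ncard) := Nat.mul_le_mul_left _ h1
    _ = n * ((Nat.card κ - 1) * (GenPow κ n).ncard) := by ring
    _ ≤ n * (QG κ n).ncard := Nat.mul_le_mul_left _ h2

end irr

end Pool.Agent.K3h23.GF
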