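import Pool.Agent.TH377.Sup.Good
import Pool.Agent.K3h23.GF.Irr

/-!
# Counting the good triples of coefficients modulo the square of a prime
-/

set_option autoImplicit false

namespace Pool.Agent.K3h23.GF

open Polynomial NumberField IsDedekindDomain Pool.Agent.TH120.Sec Pool.Agent.TH377.Sup

universe u

/-- the coefficient vector of the curve `a x^m = c - b y^n` -/
def vec {R : Type u} [CommRing R] (n : ℕ) (t : Fin 3 → R) : Fin (n + 2) → R := fun i =>
  if (i : ℕ) = 0 then t 0 else if (i : ℕ) = 1 then t 2 else if (i : ℕ) = n + 1 then - t 1 else 0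

lemma pol_vec {R : Type u} [CommRing R] (n : ℕ) (hn : 1 ≤ n) (t : Fin 3 → R) :
    pol (fun i : Fin (n + 1) => vec n t i.succ) = C (t 2) - C (t 1) * X ^ n := by
  classical
  unfold pol vec
  ext j
  rw [finsetSum_coeff, coeff_sub, coeff_C_mul, coeff_X_pow, coeff_C]
  simp_rw [coeff_C_mul_X_pow]
  by_cases hj : j < n + 1
  · rw [Finset.sum_eq_single (⟨j, hj⟩ : Fin (n + 1))]
    · simp only [Fin.val_succ, if_true]
      by_cases h0 : j = 0
      · subst h0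
        simp [show (0 : ℕ) ≠ n by omega]
      · by_cases h1 : j = n
        · subst h1
          simp [h0]
        · simp [h0, h1]
    · intro b _ hb
      rw [if_neg]
      intro h
      exact hb (Fin.ext h.symm)
    · intro h
      exact absurd (Finset.mem_univ _) h
  · rw [Finset.sum_eq_zero]
    · simp [show j ≠ 0 by omega, show j ≠ n by omega]
    · intro b _
      rw [if_neg]
      intro h
      exact hj (h ▸ b.2)

lemma map_vec {R S : Type*} [CommRing R] [CommRing S] (φ : R →+* S) (n : ℕ) (t : Fin 3 → R)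
    (i : Fin (n + 2)) : φ (vec n t i) = vec n (fun j => φ (t j)) i := by
  unfold vec
  split_ifs <;> simp

variable {K : Type u} [Field K] [NumberField K] (v : HeightOneSpectrum (𝓞 K))

/-- the good triples modulo `v ^ 2` -/
def GoodT (n : ℕ) : Set (Fin 3 → 𝓞 K ⧸ v.asIdeal ^ 2) :=
  letI := v.isMaximal
  letI := Ideal.Quotient.field v.asIdeal
  {x | pr v (x 0) = 0 ∧ x 0 ≠ 0 ∧ (pr v (x 1), pr v (x 2)) ∈ QG (𝓞 K ⧸ v.asIdeal) n}

lemma irr_pol {κ : Type u} [Field κ] [Finite κ] (n : ℕ) (hn0 : n ≠ 0) (hn : n ∣ Nat.card κ - 1)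
    (b c : κ) (h : (b, c) ∈ QG κ n) : Irreducible (C c - C b * X ^ n : κ[X]) := by
  obtain ⟨hb, hc⟩ := h
  have h1 := irreducible_binom n hn0 hn (c / b) hc
  have hb0 : b ≠ 0 := hb
  have h2 : (C c - C b * X ^ n : κ[X]) = C (-b) * (X ^ n - C (c / b)) := by
    rw [mul_sub, ← C_mul, C_neg, show -b * (c / b) = -c by field_simp, C_neg]
    ring
  rw [h2]
  exact (irreducible_isUnit_mul (isUnit_C.2 (neg_ne_zero.2 hb0).isUnit)).2 h1

lemma goodT_iff (n : ℕ) (hn0 : n ≠ 0) (hn : n ∣ Ideal.absNorm v.asIdeal - 1) (y : Fin 3 → 𝓞 K)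
    (hy : red (v.asIdeal ^ 2) 3 y ∈ GoodT v n) :
    y 0 ∈ v.asIdeal ∧ y 0 ∉ v.asIdeal ^ 2 ∧ y 1 ∉ v.asIdeal ∧ y 2 ∉ v.asIdeal ∧
      IrrMod v n fun i => vec n y i.succ := by
  classical
  have hmax : v.asIdeal.IsMaximal := v.isMaximal
  have hfin' : Finite (𝓞 K ⧸ v.asIdeal) := Ideal.finiteQuotientOfFreeOfNeBot _ v.ne_bot
  let _ : Field (𝓞 K ⧸ v.asIdeal) := Ideal.Quotient.field v.asIdeal
  obtain ⟨h1, h2, h3⟩ := hy
  have hb : Ideal.Quotient.mk v.asIdeal (y 1) ≠ 0 := h3.1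
  have hc : Ideal.Quotient.mk v.asIdeal (y 2) ≠ 0 := by
    intro h
    have h4 := h3.2.1
    apply h4
    change Ideal.Quotient.mk v.asIdeal (y 2) / _ = 0
    rw [h, zero_div]
  refine ⟨Ideal.Quotient.eq_zero_iff_mem.1 h1, fun h => h2 (Ideal.Quotient.eq_zero_iff_mem.2 h),
    fun h => hb (Ideal.Quotient.eq_zero_iff_mem.2 h),
    fun h => hc (Ideal.Quotient.eq_zero_iff_mem.2 h), ?_, ?_⟩
  · have e : vec n y (Fin.last n).succ = - y 1 := by
      unfold vec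
      simp [hn0]
    change vec n y (Fin.last n).succ ∉ v.asIdeal
    rw [e]
    intro h
    exact hb (Ideal.Quotient.eq_zero_iff_mem.2 (neg_mem_iff.1 h))
  · have e : (pol fun i : Fin (n + 1) => Ideal.Quotient.mk v.asIdeal (vec n y i.succ)) =
        C (Ideal.Quotient.mk v.asIdeal (y 2)) - C (Ideal.Quotient.mk v.asIdeal (y 1)) * X ^ n := by
      simp_rw [map_vec]
      exact pol_vec n (by omega) _
    rw [e]
    exact irr_pol n hn0 (by rwa [card_residue]) _ _ h3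

lemma goodT_card (n : ℕ) (hn0 : n ≠ 0) (hd : n ∣ Ideal.absNorm v.asIdeal - 1) :
    (Ideal.absNorm v.asIdeal - 1) ^ 3 * Ideal.absNorm v.asIdeal ^ 2 ≤ n * (GoodT v n).ncard := by
  classical
  have hfin := finite_sq v
  have hmax : v.asIdeal.IsMaximal := v.isMaximal
  have hfin' : Finite (𝓞 K ⧸ v.asIdeal) := Ideal.finiteQuotientOfFreeOfNeBot _ v.ne_bot
  let _ : Field (𝓞 K ⧸ v.asIdeal) := Ideal.Quotient.field _
  set N := Ideal.absNorm v.asIdeal with hN
  have hq := QG_card (κ := 𝓞 K ⧸ v.asIdeal) n hn0 (by rw [card_residue]; exact hd)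
  rw [card_residue, ← hN] at hq
  set J : Set (𝓞 K ⧸ v.asIdeal ^ 2) := {x | pr v x = 0} with hJ
  have hJc : J.ncard = N := ker_ncard v
  have hJ0 : (J \ {0}).ncard = N - 1 := by
    rw [Set.ncard_sdiff_singleton_of_mem (show (0 : 𝓞 K ⧸ v.asIdeal ^ 2) ∈ J from map_zero _), hJc]
  let s := Function.surjInv (pr_surj v)
  have hs : ∀ x, pr v (s x) = x := Function.surjInv_eq (pr_surj v)
  have h1 : (((J \ {0}) ×ˢ (QG (𝓞 K ⧸ v.asIdeal) n)) ×ˢ (J ×ˢ J)).ncard ≤ (GoodT v n).ncard := by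
    refine Set.ncard_le_ncard_of_injOn
      (fun x => ![x.1.1, s x.1.2.1 + x.2.1, s x.1.2.2 + x.2.2]) ?_ ?_ (Set.toFinite _)
    · rintro ⟨⟨j, b, c⟩, j1, j2⟩ ⟨⟨hj, hbc⟩, hj1, hj2⟩
      have e1 : pr v (s b + j1) = b := by
        rw [map_add, hs, show pr v j1 = 0 from hj1, add_zero]
      have e2 : pr v (s c + j2) = c := by
        rw [map_add, hs, show pr v j2 = 0 from hj2, add_zero]
      refine ⟨hj.1, hj.2, ?_⟩
      change (pr v (s b + j1), pr v (s c + j2)) ∈ QG (𝓞 K ⧸ v.asIdeal) n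
      rw [e1, e2]
      exact hbc
    · rintro ⟨⟨j, b, c⟩, j1, j2⟩ ⟨⟨hj, hbc⟩, hj1, hj2⟩ ⟨⟨j', b', c'⟩, j1', j2'⟩
        ⟨⟨hj', hbc'⟩, hj1', hj2'⟩ h
      have h0 : j = j' := congrFun h 0
      have h1 : s b + j1 = s b' + j1' := congrFun h 1
      have h2 : s c + j2 = s c' + j2' := congrFun h 2
      have e1 : b = b' := by
        have := congrArg (pr v) h1
        rwa [map_add, map_add, hs, hs, show pr v j1 = 0 from hj1, show pr v j1' = 0 from hj1',
          add_zero, add_zero] at this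
      have e2 : c = c' := by
        have := congrArg (pr v) h2
        rwa [map_add, map_add, hs, hs, show pr v j2 = 0 from hj2, show pr v j2' = 0 from hj2',
          add_zero, add_zero] at this
      subst h0 e1 e2
      rw [add_right_inj] at h1 h2
      rw [h1, h2]
  rw [Set.ncard_prod, Set.ncard_prod, Set.ncard_prod, hJc, hJ0] at h1
  calc (N - 1) ^ 3 * N ^ 2 = (N - 1) * (N - 1) ^ 2 * (N * N) := by ring
    _ ≤ (N - 1) * (n * (QG (𝓞 K ⧸ v.asIdeal) n).ncard) * (N * N) := by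
        gcongr
    _ = n * ((N - 1) * (QG (𝓞 K ⧸ v.asIdeal) n).ncard * (N * N)) := by ring
    _ ≤ n * (GoodT v n).ncard := Nat.mul_le_mul_left _ h1

/-- the complement of the good triples -/
lemma badT_card (n : ℕ) (hn0 : n ≠ 0) (hd : n ∣ Ideal.absNorm v.asIdeal - 1) :
    (((GoodT v n)ᶜ).ncard : ℝ) ≤ (1 - (1 / (4 * n)) * (1 / (Ideal.absNorm v.asIdeal : ℝ) -
      1 / (Ideal.absNorm v.asIdeal : ℝ) ^ 2)) * ((Ideal.absNorm v.asIdeal : ℝ) ^ 2) ^ 3 := by
  classical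
  have hfin := finite_sq v
  have h1 := goodT_card v n hn0 hd
  have h2 : (GoodT v n).ncard + ((GoodT v n)ᶜ).ncard = (Ideal.absNorm v.asIdeal ^ 2) ^ 3 := by
    rw [Set.ncard_add_ncard_compl, Nat.card_fun, Pool.Agent.W417.SecC.D2.card_sq, Nat.card_fin]
  set N := Ideal.absNorm v.asIdeal with hN
  have hN2 : 2 ≤ N := by
    by_contra h
    have h3 : N = 0 ∨ N = 1 := by omega
    rcases h3 with h3 | h3
    · exact absurd h3 (Pool.Agent.W417.SecC.D2.norm_pos v).ne'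
    · rw [hN, Ideal.absNorm_eq_one_iff] at h3
      exact v.isPrime.ne_top h3
  have h3 : ((GoodT v n).ncard : ℝ) + (((GoodT v n)ᶜ).ncard : ℝ) = ((N : ℝ) ^ 2) ^ 3 := by
    exact_mod_cast h2
  have h4 : ((N : ℝ) - 1) ^ 3 * (N : ℝ) ^ 2 ≤ n * ((GoodT v n).ncard : ℝ) := by
    have h5 : ((N - 1 : ℕ) : ℝ) = (N : ℝ) - 1 := by
      rw [Nat.cast_sub (by omega)]
      norm_num
    rw [← h5]
    exact_mod_cast h1
  have hNr : (2 : ℝ) ≤ N := by exact_mod_cast hN2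
  have hnr : (0 : ℝ) < n := by exact_mod_cast Nat.pos_of_ne_zero hn0
  have h6 : (1 - (1 / (4 * n)) * (1 / (N : ℝ) - 1 / (N : ℝ) ^ 2)) * ((N : ℝ) ^ 2) ^ 3 =
      ((N : ℝ) ^ 2) ^ 3 - (1 / (4 * n)) * (((N : ℝ) - 1) * (N : ℝ) ^ 4) := by
    field_simp
  rw [h6]
  have h7 : (1 / 4) * (((N : ℝ) - 1) * (N : ℝ) ^ 4) ≤ ((N : ℝ) - 1) ^ 3 * (N : ℝ) ^ 2 := by
    have h8 : (1 / 4) * (N : ℝ) ^ 2 ≤ ((N : ℝ) - 1) ^ 2 := by nlinarith
    have h9 : 0 ≤ ((N : ℝ) - 1) * (N : ℝ) ^ 2 := by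
      apply mul_nonneg
      · linarith
      · exact sq_nonneg _
    nlinarith [mul_le_mul_of_nonneg_left h8 h9]
  have h8 : (1 / (4 * n)) * (((N : ℝ) - 1) * (N : ℝ) ^ 4) ≤ ((GoodT v n).ncard : ℝ) := by
    have h9 := h7.trans h4
    have h10 : (1 / (4 * n)) * (((N : ℝ) - 1) * (N : ℝ) ^ 4) =
        ((1 / 4) * (((N : ℝ) - 1) * (N : ℝ) ^ 4)) / n := by
      field_simp
    rw [h10, div_le_iff₀ hnr]
    linarith
  linarith

end Pool.Agent.K3h23.GF
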