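import Pool.Agent.K3h23.GF.Pts

/-!
# Superelliptic curves over finite extensions of discretely valued fields
-/

set_option autoImplicit false

namespace Pool.Agent.K3h23.GF

open Polynomial Pool.Agent.W623.SecC Pool.Agent.TH377.LocG Pool.Agent.W620.SC

universe u v w x y

/-- the number which divides the degrees of the fields over which there are sections -/
def secIndex (n d : ℕ) : ℕ :=
  if 4 ∣ Nat.gcd n d ∧ ¬ 2 * Nat.gcd n d ∣ d then Nat.gcd n d / 2 else Nat.gcd n d

/-- the local data of the curve `a yⁿ = g(x)` -/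
def Data (k : Type u) [Field k] (a : k) (g : k[X]) : Prop :=
  ∃ (A : Type u) (_ : CommRing A) (_ : IsDomain A) (_ : IsDiscreteValuationRing A)
    (_ : Algebra A k) (_ : IsFractionRing A k) (f : A[X]),
    Finite (IsLocalRing.ResidueField A) ∧ IsUnit (2 : A) ∧ f.map (algebraMap A k) = g ∧
    IsUnit f.leadingCoeff ∧ Irreducible (f.map (IsLocalRing.residue A)) ∧
    ∃ (ϖ t : A) (m : ℤ), Irreducible ϖ ∧ IsUnit t ∧ (m = 1 ∨ m = -1) ∧
      a = algebraMap A k t * algebraMap A k ϖ ^ m

lemma factorDiv_of_irr {κ : Type*} [Field κ] (P : κ[X]) (hP : Irreducible P) :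
    FactorDiv P.natDegree P := by
  intro h hh hd
  obtain ⟨r, hr⟩ := hd
  have h1 : IsUnit r := by
    rcases hP.2 hr with h2 | h2
    · exact absurd h2 hh.1
    · exact h2
  have h2 : P.natDegree = h.natDegree := by
    have h3 : r.natDegree = 0 := natDegree_eq_zero_of_isUnit h1
    have hr0 : r ≠ 0 := h1.ne_zero
    rw [hr, natDegree_mul hh.ne_zero hr0, h3, add_zero]
  rw [h2]

/-- arithmetic of the `l`-parts -/
lemma dvd_of_val (l c f r N d : ℕ) (hl : l.Prime) (hf : f ≠ 0) (hr : r ≠ 0) (hd : d ≠ 0)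
    (h : d ∣ f * r) (hN : N + padicValNat l f ≤ padicValNat l d) (hc : c ≤ N) : l ^ c ∣ r := by
  have hfact : Fact l.Prime := ⟨hl⟩
  have h4 : padicValNat l d ≤ padicValNat l (f * r) :=
    (padicValNat_dvd_iff_le (mul_ne_zero hf hr)).1 (pow_padicValNat_dvd.trans h)
  rw [padicValNat.mul hf hr] at h4
  exact (padicValNat_dvd_iff_le hr).2 (by omega)

theorem points_L {k : Type u} {L : Type y} [Field k] [CharZero k] [Field L] [Algebra k L]
    [FiniteDimensional k L] (a : k) (g : k[X]) (hdata : Data k a g) (n : ℕ) (hn : 0 < n)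
    (hL : ¬ Nat.gcd n g.natDegree ∣ Module.finrank k L) :
    (¬ ∃ x y : L, algebraMap k L a * y ^ n = (g.map (algebraMap k L)).eval x) ∧
      ¬ ∃ r : L, algebraMap k L a * r ^ Nat.gcd n g.natDegree =
        algebraMap k L g.leadingCoeff := by
  classical
  obtain ⟨R, _, _, _, _, _, f, hfin, h2, hfg, hlc, hirr, ϖ0, t0, m0, hϖ0, ht0, hm0, ha⟩ := hdata
  let _ : Algebra R L := ((algebraMap k L).comp (algebraMap R k)).toAlgebra
  have hst : IsScalarTower R k L := IsScalarTower.of_algebraMap_eq (fun _ => rfl)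
  have hRk := IsFractionRing.injective R k
  have hdeg : f.natDegree = g.natDegree := by
    rw [← hfg]
    exact (natDegree_map_eq_of_injective hRk f).symm
  have hdegr : (f.map (IsLocalRing.residue R)).natDegree = g.natDegree := by
    rw [← hdeg]
    exact natDegree_map_of_leadingCoeff_ne_zero _ (hlc.map _).ne_zero
  have hd0 : g.natDegree ≠ 0 := by
    rw [← hdegr]
    exact hirr.natDegree_pos.ne'
  have hs : (f.map (IsLocalRing.residue R)).Separable := by
    have hperf : PerfectField (IsLocalRing.ResidueField R) := inferInstance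
    exact PerfectField.separable_of_irreducible hirr
  have hn0 : Module.finrank k L ≠ 0 := by
    have : 0 < Module.finrank k L := Module.finrank_pos
    exact this.ne'
  set d := g.natDegree with hd
  set M := Nat.gcd n d with hM
  have hM0 : M ≠ 0 := (Nat.gcd_pos_of_pos_left _ hn).ne'
  obtain ⟨l, hl, hlt⟩ := Pool.Agent.TH377.NC.exists_prime_lt M _ hM0 hn0 hL
  have hfact : Fact l.Prime := ⟨hl⟩
  have hσ := factorDiv_of_irr _ hirr
  rw [hdegr] at hσ
  obtain ⟨e, fd, he0, hf0, hef, B, _, _, _, _, _, F, -, -, hFlc, hFdeg, hFL, -, hFd, ϖ, t, hϖ, ht,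
    hat⟩ := dvr_ext (k := k) (L := L) hfin f hlc hs d hσ ϖ0 t0 hϖ0 ht0 m0 l hl
  have hMd : M ∣ d := Nat.gcd_dvd_right _ _
  have hMn : M ∣ n := Nat.gcd_dvd_left _ _
  have hvMd : padicValNat l M ≤ padicValNat l d := by
    exact (padicValNat_dvd_iff_le hd0).1 (pow_padicValNat_dvd.trans hMd)
  have hroot : ∀ b : B, F.eval b ∉ IsLocalRing.maximalIdeal B := by
    refine no_root F ?_
    intro h hh hhd h1
    have h3 := hFd h hh hhd
    rw [h1, mul_one] at h3
    have h4 : padicValNat l d ≤ padicValNat l fd :=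
      (padicValNat_dvd_iff_le hf0).1 (pow_padicValNat_dvd.trans h3)
    omega
  have hMe : ¬ (M : ℤ) ∣ (e : ℤ) * m0 := by
    intro h
    have h3 : M ∣ e := by
      have h4 : (M : ℤ) ∣ e := by
        rcases hm0 with rfl | rfl
        · rwa [mul_one] at h
        · rwa [mul_neg, mul_one, Int.dvd_neg] at h
      exact_mod_cast h4
    have h5 : padicValNat l M ≤ padicValNat l e :=
      (padicValNat_dvd_iff_le he0).1 (pow_padicValNat_dvd.trans h3)
    omega
  have haL : algebraMap k L a = algebraMap B L t * algebraMap B L ϖ ^ ((e : ℤ) * m0) := by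
    rw [← hat, ha, map_mul, map_zpow₀]
    rfl
  have hFg : F.map (algebraMap B L) = g.map (algebraMap k L) := by
    rw [hFL, ← hfg, Polynomial.map_map, ← IsScalarTower.algebraMap_eq R k L]
  refine ⟨?_, ?_⟩
  · rintro ⟨x, y, hxy⟩
    rw [← hFg] at hxy
    obtain ⟨u, j, hu, huj⟩ := eval_deg ϖ hϖ F hFlc hroot x
    rw [huj] at hxy
    refine hMe (val_dvd ϖ hϖ M n hn hMn _ t ht _ haL u hu _ ?_ y hxy)
    rw [hFdeg, hdeg]
    exact Dvd.dvd.mul_right (by exact_mod_cast hMd) _
  · rintro ⟨r, hr⟩
    have h3 : algebraMap k L g.leadingCoeff =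
        algebraMap B L F.leadingCoeff * algebraMap B L ϖ ^ (0 : ℤ) := by
      rw [zpow_zero, mul_one, ← leadingCoeff_map_of_injective
        (IsFractionRing.injective B L) F, hFg, leadingCoeff_map]
    rw [h3] at hr
    exact hMe (val_dvd ϖ hϖ M M (Nat.pos_of_ne_zero hM0) dvd_rfl _ t ht _ haL _ hFlc _
      (dvd_zero _) r hr)

theorem sections_L {k : Type u} {L : Type y} [Field k] [CharZero k] [Field L] [Algebra k L]
    [FiniteDimensional k L] (a : k) (g : k[X]) (hdata : Data k a g) (hg3 : 3 ≤ g.natDegree)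
    (n : ℕ) (hn : 0 < n) (hL : ¬ secIndex n g.natDegree ∣ Module.finrank k L)
    {F : Type v} {Ω : Type w} [Field F] [Field Ω] [Algebra L F] [Algebra F Ω] [Algebra L Ω]
    [IsScalarTower L F Ω] [IsAlgClosed Ω] [Algebra.IsAlgebraic F Ω]
    (U : Set (ValuationSubring F)) (hU : ∀ O ∈ U, ∀ c : L, algebraMap L F c ∈ O)
    (x y : F) (hxy : algebraMap L F (algebraMap k L a) * y ^ n =
      aeval x (g.map (algebraMap k L))) : IsEmpty (GSection L F Ω U) := by
  classical
  obtain ⟨R, _, _, _, _, _, f, hfin, h2, hfg, hlc, hirr, ϖ0, t0, m0, hϖ0, ht0, hm0, ha⟩ := hdata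
  let _ : Algebra R L := ((algebraMap k L).comp (algebraMap R k)).toAlgebra
  have hst : IsScalarTower R k L := IsScalarTower.of_algebraMap_eq (fun _ => rfl)
  have hczL : CharZero L := charZero_of_injective_algebraMap (algebraMap k L).injective
  have hRk := IsFractionRing.injective R k
  have hdeg : f.natDegree = g.natDegree := by
    rw [← hfg]
    exact (natDegree_map_eq_of_injective hRk f).symm
  have hdegr : (f.map (IsLocalRing.residue R)).natDegree = g.natDegree := by
    rw [← hdeg]
    exact natDegree_map_of_leadingCoeff_ne_zero _ (hlc.map _).ne_zero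
  have hd0 : g.natDegree ≠ 0 := by omega
  have hs : (f.map (IsLocalRing.residue R)).Separable := by
    have hperf : PerfectField (IsLocalRing.ResidueField R) := inferInstance
    exact PerfectField.separable_of_irreducible hirr
  have hn0 : Module.finrank k L ≠ 0 := by
    have : 0 < Module.finrank k L := Module.finrank_pos
    exact this.ne'
  set d := g.natDegree with hd
  set M := Nat.gcd n d with hM
  have hM0 : M ≠ 0 := (Nat.gcd_pos_of_pos_left _ hn).ne'
  have hMd : M ∣ d := Nat.gcd_dvd_right _ _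
  have hMn : M ∣ n := Nat.gcd_dvd_left _ _
  set D := secIndex n d with hD
  have hDM : D ∣ M := by
    rw [hD, secIndex]
    split_ifs with h
    · exact Nat.div_dvd_of_dvd (Dvd.dvd.trans (by norm_num) h.1)
    · exact dvd_rfl
  have hD0 : D ≠ 0 := by
    rintro h
    rw [h] at hDM
    exact hM0 (Nat.eq_zero_of_zero_dvd hDM)
  obtain ⟨l, hl, hlt⟩ := Pool.Agent.TH377.NC.exists_prime_lt D _ hD0 hn0 hL
  have hfact : Fact l.Prime := ⟨hl⟩
  have hσ := factorDiv_of_irr _ hirr
  rw [hdegr] at hσ
  obtain ⟨e, fd, he0, hf0, hef, B, _, _, _, _, _, G, hfinB, h2B, hGlc, hGdeg, hGL, hGs, hGd, ϖ, t,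
    hϖ, ht, hat⟩ := dvr_ext (k := k) (L := L) hfin f hlc hs d hσ ϖ0 t0 hϖ0 ht0 m0 l hl
  have hvDM : padicValNat l D ≤ padicValNat l M :=
    (padicValNat_dvd_iff_le hM0).1 (pow_padicValNat_dvd.trans hDM)
  have hvMd : padicValNat l M ≤ padicValNat l d :=
    (padicValNat_dvd_iff_le hd0).1 (pow_padicValNat_dvd.trans hMd)
  have hvMn : padicValNat l M ≤ padicValNat l n :=
    (padicValNat_dvd_iff_le hn.ne').1 (pow_padicValNat_dvd.trans hMn)
  have haL : algebraMap k L a = algebraMap B L t * algebraMap B L ϖ ^ ((e : ℤ) * m0) := by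
    rw [← hat, ha, map_mul, map_zpow₀]
    rfl
  have hGg : G.map (algebraMap B L) = g.map (algebraMap k L) := by
    rw [hGL, ← hfg, Polynomial.map_map, ← IsScalarTower.algebraMap_eq R k L]
  by_cases hcase : l = 2 ∧ padicValNat l e = 0
  · -- odd ramification
    obtain ⟨rfl, hce⟩ := hcase
    have heo : Odd e := by
      rw [← Nat.not_even_iff_odd, even_iff_two_dvd]
      intro h
      have h3 : 2 ^ 1 ∣ e := by simpa using h
      have := (padicValNat_dvd_iff_le he0).1 h3
      omega
    have hmo : Odd ((e : ℤ) * m0) := by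
      have h3 : Odd (e : ℤ) := by exact_mod_cast heo
      rcases hm0 with rfl | rfl
      · rwa [mul_one]
      · rw [mul_neg, mul_one]
        exact h3.neg
    have h2n : 2 ∣ n := by
      have h3 : 2 ^ 1 ∣ n := (padicValNat_dvd_iff_le hn.ne').2 (by omega)
      simpa using h3
    have h2d : 2 ∣ d := by
      have h3 : 2 ^ 1 ∣ d := (padicValNat_dvd_iff_le hd0).2 (by omega)
      simpa using h3
    have hroot : ∀ b : B, G.eval b ∉ IsLocalRing.maximalIdeal B := by
      refine no_root G ?_
      intro h hh hhd h1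
      have h3 := hGd h hh hhd
      rw [h1, mul_one] at h3
      have h4 : padicValNat 2 d ≤ padicValNat 2 fd :=
        (padicValNat_dvd_iff_le hf0).1 (pow_padicValNat_dvd.trans h3)
      omega
    obtain ⟨n', rfl⟩ := h2n
    have hGd' : G.natDegree = d := by rw [hGdeg, hdeg]
    have hxy' : algebraMap L F (algebraMap k L a) * (y ^ n') ^ 2 =
        aeval x (G.map (algebraMap B L)) := by
      rw [hGg, ← hxy, ← pow_mul, mul_comm n' 2]
    exact local_no_section (A := B) (k := L) (h2B h2) G hGlc hGs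
      (by rw [hGd']; exact even_iff_two_dvd.2 h2d)
      (by rw [hGd']; obtain ⟨j, hj⟩ := h2d; omega) hroot ϖ hϖ (algebraMap k L a) t ht _ hmo haL U hU
      x (y ^ n') hxy'
  · -- the general case
    set c := padicValNat l e with hc
    have hprod1 : ∏ _i : Unit, G = G := by simp
    have hprod2 : ∏ _i : Unit, G ^ 1 = G := by simp
    have hln : l ^ (c + 1) ∣ n := (padicValNat_dvd_iff_le hn.ne').2 (by omega)
    obtain ⟨n', hn'⟩ := hln
    have hfac : FactorDiv (Nat.gcd 2 (l ^ (c + 1)) * l ^ (c + 1))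
        (G.map (IsLocalRing.residue B)) := by
      intro h hh hhd
      have h3 := hGd h hh hhd
      have hr0 : h.natDegree ≠ 0 := hh.natDegree_pos.ne'
      by_cases hl2 : l = 2
      · subst hl2
        have hc1 : 1 ≤ c := by
          by_contra h4
          exact hcase ⟨rfl, by omega⟩
        have h4M : 4 ∣ M := by
          have h5 : 2 ^ 2 ∣ M := (padicValNat_dvd_iff_le hM0).2 (by omega)
          simpa using h5
        have hkey : padicValNat 2 D + 1 ≤ padicValNat 2 d := by
          by_cases h2M : 2 * M ∣ d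
          · have h5 : padicValNat 2 (2 * M) ≤ padicValNat 2 d :=
              (padicValNat_dvd_iff_le hd0).1 (pow_padicValNat_dvd.trans h2M)
            rw [padicValNat.mul two_ne_zero hM0, padicValNat_self] at h5
            omega
          · have h5 : D = M / 2 := by
              rw [hD, secIndex, if_pos ⟨h4M, h2M⟩]
            have h6 : M = 2 * D := by omega
            have h7 : padicValNat 2 M = 1 + padicValNat 2 D := by
              rw [h6, padicValNat.mul two_ne_zero hD0, padicValNat_self]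
            omega
        have h5 : Nat.gcd 2 (2 ^ (c + 1)) = 2 := Nat.gcd_eq_left (dvd_pow_self 2 (by omega))
        rw [h5, ← pow_succ']
        exact dvd_of_val 2 (c + 1 + 1) fd _ (c + 1 + 1) d hl hf0 hr0 hd0 h3 (by omega) le_rfl
      · have h5 : Nat.gcd 2 (l ^ (c + 1)) = 1 := by
          refine Nat.Coprime.pow_right _ ?_
          exact (Nat.coprime_primes Nat.prime_two hl).2 (Ne.symm hl2)
        rw [h5, one_mul]
        exact dvd_of_val l (c + 1) fd _ (c + 1) d hl hf0 hr0 hd0 h3 (by omega) le_rfl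
    have hme : ¬ ((l ^ (c + 1) : ℕ) : ℤ) ∣ (e : ℤ) * m0 := by
      intro h
      have h3 : l ^ (c + 1) ∣ e := by
        have h4 : ((l ^ (c + 1) : ℕ) : ℤ) ∣ e := by
          rcases hm0 with rfl | rfl
          · rwa [mul_one] at h
          · rwa [mul_neg, mul_one, Int.dvd_neg] at h
        exact_mod_cast h4
      have h5 := (padicValNat_dvd_iff_le he0).1 h3
      omega
    have hxy' : algebraMap L F (algebraMap k L a) * (y ^ n') ^ (l ^ (c + 1)) =
        aeval x (G.map (algebraMap B L)) := by
      rw [hGg, ← hxy, ← pow_mul, hn', mul_comm n']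
    refine local_U (A := B) (k := L) (l ^ (c + 1)) (pow_pos hl.pos _) (fun _ : Unit => G)
      (fun _ => 1) (fun _ => hGlc) (by rwa [hprod1]) (by rwa [hprod1]) ϖ hϖ (algebraMap k L a) t ht
      _ hme haL (fun _ => Nat.coprime_one_right _) U hU x (y ^ n') ?_
    rw [hprod2]
    exact hxy'

end Pool.Agent.K3h23.GF
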