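import Pool.Agent.TH377.NC.Dvr
import Pool.Agent.TH377.LocG.Res
import Pool.Agent.W623.SecC.All

/-!
# Finite extensions of discretely valued fields, all the data
-/

set_option autoImplicit false
set_option maxHeartbeats 400000
set_option linter.unusedSectionVars false

namespace Pool.Agent.K3h23.GF

open Polynomial IsDedekindDomain Pool.Agent.TH377.LocG Pool.Agent.TH377.NC Pool.Agent.TH120.Sec

universe u v w x y

theorem dvr_ext {R : Type u} {k : Type v} {L : Type y} [CommRing R] [IsDomain R]
    [IsDiscreteValuationRing R] [Field k] [Algebra R k] [IsFractionRing R k] [CharZero k]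
    [Field L] [Algebra k L] [FiniteDimensional k L] [Algebra R L] [IsScalarTower R k L]
    (hfinR : Finite (IsLocalRing.ResidueField R))
    (g : R[X]) (hlc : IsUnit g.leadingCoeff) (hs : (g.map (IsLocalRing.residue R)).Separable)
    (N : ℕ) (hσ : FactorDiv N (g.map (IsLocalRing.residue R)))
    (ϖ0 t0 : R) (hϖ0 : Irreducible ϖ0) (ht0 : IsUnit t0) (m : ℤ) (l : ℕ) (hl : l.Prime) :
    ∃ e fd : ℕ, e ≠ 0 ∧ fd ≠ 0 ∧
      padicValNat l e + padicValNat l fd ≤ padicValNat l (Module.finrank k L) ∧
      ∃ (A : Type y) (_ : CommRing A) (_ : IsDomain A)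
      (_ : IsDiscreteValuationRing A) (_ : Algebra A L) (_ : IsFractionRing A L) (f : A[X]),
      Finite (IsLocalRing.ResidueField A) ∧ (IsUnit (2 : R) → IsUnit (2 : A)) ∧
      IsUnit f.leadingCoeff ∧ f.natDegree = g.natDegree ∧
      f.map (algebraMap A L) = g.map (algebraMap R L) ∧
      (f.map (IsLocalRing.residue A)).Separable ∧
      (∀ h : (IsLocalRing.ResidueField A)[X], Irreducible h → h ∣ f.map (IsLocalRing.residue A) →
        N ∣ fd * h.natDegree) ∧
      ∃ (ϖ t : A), Irreducible ϖ ∧ IsUnit t ∧
        algebraMap R L t0 * algebraMap R L ϖ0 ^ m =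
          algebraMap A L t * algebraMap A L ϖ ^ ((e : ℤ) * m) := by
  classical
  have hn0 : Module.finrank k L ≠ 0 := by
    have : 0 < Module.finrank k L := Module.finrank_pos
    exact this.ne'
  have hfact : Fact l.Prime := ⟨hl⟩
  set a := padicValNat l (Module.finrank k L) with ha
  -- the integral closure
  have hsep : Algebra.IsSeparable k L := inferInstance
  let S := integralClosure R L
  have hfr : IsFractionRing S L := integralClosure.isFractionRing_of_finite_extension k L
  have hded : IsDedekindDomain S := integralClosure.isDedekindDomain R k L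
  have hfinS : Module.Finite R S := IsIntegralClosure.finite R k L S
  have hRL : Function.Injective (algebraMap R L) := by
    rw [IsScalarTower.algebraMap_eq R k L]
    exact (algebraMap k L).injective.comp (IsFractionRing.injective R k)
  have hRS : Function.Injective (algebraMap R S) := by
    intro x y hxy
    apply hRL
    rw [IsScalarTower.algebraMap_apply R S L, hxy, ← IsScalarTower.algebraMap_apply R S L]
  have htf : Module.IsTorsionFree R S :=
    (Module.isTorsionFree_iff_algebraMap_injective (R := R) (A := S)).2 hRS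
  have hflat : Module.Flat R S := inferInstance
  set p : Ideal R := IsLocalRing.maximalIdeal R with hp
  have hp0 : p ≠ ⊥ := IsDiscreteValuationRing.not_a_field R
  have hprime : p.IsPrime := inferInstance
  have hmaxp : p.IsMaximal := inferInstance
  have hrank : Module.finrank R S = Module.finrank k L := (IsFractionRing.finrank_eq R k S L).symm
  have hft : Finite (p.primesOver S) := inferInstance
  let _ : Fintype (p.primesOver S) := Fintype.ofFinite _
  obtain ⟨q, hq⟩ : ∃ q : p.primesOver S,
      ¬ l ^ (a + 1) ∣ q.1.ramificationIdx R * q.1.inertiaDeg R := by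
    by_contra h1
    rw [not_exists] at h1
    have h2 : l ^ (a + 1) ∣ Module.finrank k L := by
      rw [← hrank, ← Ideal.sum_ramification_inertia_eq_finrank p S]
      exact Finset.dvd_sum fun q _ => not_not.1 (h1 q)
    exact pow_succ_padicValNat_not_dvd hn0 h2
  set e := q.1.ramificationIdx R with he
  set fd := q.1.inertiaDeg R with hfd
  have he0 : e ≠ 0 := by
    intro h0
    apply hq
    rw [h0, zero_mul]
    exact dvd_zero _
  have hf0 : fd ≠ 0 := by
    intro h0
    apply hq
    rw [h0, mul_zero]
    exact dvd_zero _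
  have hef : padicValNat l e + padicValNat l fd ≤ a := by
    by_contra h1
    rw [not_le] at h1
    apply hq
    rw [padicValNat_dvd_iff_le (mul_ne_zero he0 hf0), padicValNat.mul he0 hf0]
    exact h1
  refine ⟨e, fd, he0, hf0, hef, ?_⟩
  have hqp : q.1.IsPrime := q.2.1
  have hlies : q.1.LiesOver p := q.2.2
  have hq0 : q.1 ≠ ⊥ := by
    intro h
    apply hp0
    have h1 := hlies.over
    rw [h] at h1
    rw [h1]
    exact Ideal.comap_bot_of_injective _ hRS
  have hqm : q.1.IsMaximal := Ideal.IsPrime.isMaximal hqp hq0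
  obtain ⟨A, iA1, iA2, iA3, iA4, j, ε, hfrA, hjL, hjr, hbn⟩ := local_ringS (L := L) q.1 hqp hq0
  let _ : Field (R ⧸ p) := Ideal.Quotient.field _
  let _ : Field (S ⧸ q.1) := Ideal.Quotient.field _
  have hfinq : FiniteDimensional (R ⧸ p) (S ⧸ q.1) := inferInstance
  have hfinRp : Finite (R ⧸ p) := hfinR
  have hfinSq : Finite (S ⧸ q.1) :=
    Module.finite_of_finite (R := R ⧸ p) (M := S ⧸ q.1)
  have hfinA : Finite (IsLocalRing.ResidueField A) := Finite.of_equiv _ ε.toEquiv
  set ι : (R ⧸ p) →+* (S ⧸ q.1) := algebraMap (R ⧸ p) (S ⧸ q.1) with hι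
  have hmap : ((g.map (algebraMap R S)).map j).map (IsLocalRing.residue A) =
      ((g.map (Ideal.Quotient.mk p)).map ι).map
        (ε : (S ⧸ q.1) →+* IsLocalRing.ResidueField A) := by
    rw [Polynomial.map_map, Polynomial.map_map, Polynomial.map_map, Polynomial.map_map]
    congr 1
    rw [hjr]
    rfl
  have hfdeq : fd = Module.finrank (R ⧸ p) (S ⧸ q.1) := Ideal.inertiaDeg_eq_of_isMaximal p q.1
  have hjinj : Function.Injective (j.comp (algebraMap R S)) := by
    intro x y hxy
    apply hRL
    have h1 := congrArg (algebraMap A L) hxy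
    rw [IsScalarTower.algebraMap_apply R S L, IsScalarTower.algebraMap_apply R S L y, ← hjL]
    exact h1
  have hlc' : ((g.map (algebraMap R S)).map j).leadingCoeff =
      j (algebraMap R S g.leadingCoeff) := by
    rw [Polynomial.map_map]
    exact leadingCoeff_map_of_injective hjinj g
  refine ⟨A, iA1, iA2, iA3, iA4, hfrA, (g.map (algebraMap R S)).map j, hfinA, ?_, ?_, ?_, ?_, ?_,
    ?_, ?_⟩
  · intro h2
    have h3 := (h2.map (algebraMap R S)).map j
    rwa [map_ofNat, map_ofNat] at h3
  · rw [hlc']
    exact (hlc.map _).map _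
  · rw [Polynomial.map_map]
    exact natDegree_map_eq_of_injective hjinj g
  · rw [Polynomial.map_map, Polynomial.map_map, hjL]
    congr 1
  · rw [hmap]
    exact (hs.map (f := ι)).map
  · intro h hirr hdvd
    rw [hmap] at hdvd
    -- transport along the isomorphism
    have h1 : Irreducible (h.map (ε.symm : IsLocalRing.ResidueField A →+* (S ⧸ q.1))) :=
      (MulEquiv.irreducible_iff (Polynomial.mapEquiv ε.symm)).2 hirr
    have h2 : h.map (ε.symm : IsLocalRing.ResidueField A →+* (S ⧸ q.1)) ∣
        (g.map (Ideal.Quotient.mk p)).map ι := by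
      have h3 := Polynomial.map_dvd (ε.symm : IsLocalRing.ResidueField A →+* (S ⧸ q.1)) hdvd
      rw [Polynomial.map_map (ε : (S ⧸ q.1) →+* IsLocalRing.ResidueField A)] at h3
      have h4 : (ε.symm : IsLocalRing.ResidueField A →+* (S ⧸ q.1)).comp
          (ε : (S ⧸ q.1) →+* IsLocalRing.ResidueField A) = RingHom.id _ := by
        ext z
        simp
      rwa [h4, Polynomial.map_id] at h3
    have h3 := factor_ext (g.map (Ideal.Quotient.mk p)) _ hσ _ h1 h2
    rwa [natDegree_map, ← hfdeq] at h3
  · have hϖS : algebraMap R S ϖ0 ≠ 0 := by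
      intro h
      exact hϖ0.ne_zero (hRS (by rw [h, map_zero]))
    obtain ⟨ϖ, t, n, hϖ, ht, hb2, hb3⟩ := hbn (algebraMap R S ϖ0) hϖS
    have hspan : p = Ideal.span {ϖ0} := hϖ0.maximalIdeal_eq
    have hmp : p.map (algebraMap R S) = Ideal.span {algebraMap R S ϖ0} := by
      rw [hspan, Ideal.map_span, Set.image_singleton]
    have hmapp : ∀ i, p.map (algebraMap R S) ≤ q.1 ^ i ↔ i ≤ n := by
      intro i
      rw [← hb3, hmp, Ideal.span_singleton_le_iff_mem]
    have hen : e = n := by
      have h1 : p.ramificationIdx' q.1 = n :=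
        Ideal.ramificationIdx'_spec ((hmapp n).2 le_rfl) (fun h => by
          have := (hmapp (n + 1)).1 h
          omega)
      have h2 : p.ramificationIdx' q.1 = q.1.ramificationIdx R :=
        Ideal.ramificationIdx'_eq_ramificationIdx _ _ hp0
      rw [he, ← h2, h1]
    have htu : IsUnit (j (algebraMap R S t0)) := (ht0.map _).map j
    have hL0 : algebraMap R L t0 = algebraMap A L (j (algebraMap R S t0)) := by
      rw [IsScalarTower.algebraMap_apply R S L, ← hjL, RingHom.comp_apply]
    obtain ⟨tu, htu'⟩ := ht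
    have htinv : ∀ m : ℤ, algebraMap A L t ^ m = algebraMap A L ((tu ^ m : Aˣ) : A) := by
      intro m
      rw [← htu']
      have h := congrArg Units.val (map_zpow (Units.map (algebraMap A L : A →* L)) tu m)
      rw [Units.val_zpow_eq_zpow_val] at h
      exact h.symm
    refine ⟨ϖ, j (algebraMap R S t0) * ((tu ^ m : Aˣ) : A), hϖ, htu.mul (Units.isUnit _), ?_⟩
    rw [hL0, map_mul, ← htinv, IsScalarTower.algebraMap_apply R S L ϖ0, hb2, ← hen, mul_zpow,
      mul_assoc, ← zpow_natCast, ← zpow_mul]

end Pool.Agent.K3h23.GF
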