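import Pool.Agent.K3h23.GF.Ext

/-!
# Points of superelliptic curves over discretely valued fields
-/

set_option autoImplicit false

namespace Pool.Agent.K3h23.GF

open Polynomial Pool.Agent.W623.SecC

section dvr

variable {A k : Type*} [CommRing A] [IsDomain A] [IsDiscreteValuationRing A] [Field k]
  [Algebra A k] [IsFractionRing A k]

/-- the values of a polynomial without roots modulo the maximal ideal -/
lemma eval_deg (ϖ : A) (hϖ : Irreducible ϖ) (f : A[X]) (hlc : IsUnit f.leadingCoeff)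
    (hroot : ∀ b : A, f.eval b ∉ IsLocalRing.maximalIdeal A) (x : k) :
    ∃ (u : A) (j : ℤ), IsUnit u ∧
      (f.map (algebraMap A k)).eval x =
        algebraMap A k u * algebraMap A k ϖ ^ ((f.natDegree : ℤ) * j) := by
  rcases mem_or_inv ϖ hϖ x with ⟨b, rfl⟩ | ⟨hx, b, hb, hbx⟩
  · refine ⟨f.eval b, 0, ?_, ?_⟩
    · by_contra h
      exact hroot b ((IsLocalRing.mem_maximalIdeal _).2 h)
    · rw [mul_zero, zpow_zero, mul_one, eval_map, eval₂_at_apply]
  · obtain ⟨v, l, hl⟩ := exists_unit_zpow ϖ hϖ x hx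
    have hr : IsUnit ((reverse f).eval b) := by
      by_contra h
      have h1 : (reverse f).eval b ∈ IsLocalRing.maximalIdeal A :=
        (IsLocalRing.mem_maximalIdeal _).2 h
      rw [← divX_mul_X_add (reverse f), eval_add, eval_mul, eval_X, eval_C,
        coeff_zero_reverse] at h1
      have h2 : f.leadingCoeff ∈ IsLocalRing.maximalIdeal A := by
        have h3 := Ideal.mul_mem_left (IsLocalRing.maximalIdeal A)
          (eval b (reverse f).divX) hb
        exact (Ideal.add_mem_iff_right _ h3).1 h1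
      exact (IsLocalRing.mem_maximalIdeal _).1 h2 hlc
    refine ⟨(reverse f).eval b * (v : A) ^ f.natDegree, l, hr.mul (v.isUnit.pow _), ?_⟩
    let _ := invertibleOfNonzero hx
    have h2 := Polynomial.eval₂_reverse_mul_pow (algebraMap A k) x f
    rw [invOf_eq_inv, ← hbx, eval₂_at_apply] at h2
    rw [eval_map, ← h2, map_mul, map_pow]
    have h3 : x ^ f.natDegree = algebraMap A k v ^ f.natDegree *
        algebraMap A k ϖ ^ ((f.natDegree : ℤ) * l) := by
      rw [hl, mul_pow, ← zpow_natCast (algebraMap A k ϖ ^ l), ← zpow_mul]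
      congr 2
      ring
    rw [h3]
    ring

/-- values of `a yⁿ` -/
lemma val_dvd (ϖ : A) (hϖ : Irreducible ϖ) (M n : ℕ) (hn : 0 < n) (hMn : M ∣ n)
    (a : k) (t : A) (ht : IsUnit t) (m : ℤ)
    (ha : a = algebraMap A k t * algebraMap A k ϖ ^ m) (u : A) (hu : IsUnit u) (j : ℤ)
    (hj : (M : ℤ) ∣ j) (y : k)
    (h : a * y ^ n = algebraMap A k u * algebraMap A k ϖ ^ j) : (M : ℤ) ∣ m := by
  have hϖk : algebraMap A k ϖ ≠ 0 := by
    rw [Ne, map_eq_zero_iff _ (IsFractionRing.injective A k)]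
    exact hϖ.ne_zero
  have huk : algebraMap A k u ≠ 0 := (hu.map (algebraMap A k)).ne_zero
  have hy : y ≠ 0 := by
    rintro rfl
    rw [zero_pow hn.ne', mul_zero] at h
    exact mul_ne_zero huk (zpow_ne_zero _ hϖk) h.symm
  obtain ⟨v, l, rfl⟩ := exists_unit_zpow ϖ hϖ y hy
  obtain ⟨t, rfl⟩ := ht
  obtain ⟨u, rfl⟩ := hu
  have h1 : algebraMap A k ϖ ^ (m + n * l - j) =
      algebraMap A k ((u * t⁻¹ * (v⁻¹) ^ n : Aˣ) : A) := by
    have hinv : ∀ w : Aˣ, algebraMap A k ((w⁻¹ : Aˣ) : A) = (algebraMap A k (w : A))⁻¹ := by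
      intro w
      refine (inv_eq_of_mul_eq_one_right ?_).symm
      rw [← map_mul, Units.mul_inv, map_one]
    have hne : ∀ w : Aˣ, algebraMap A k (w : A) ≠ 0 := fun w =>
      (w.isUnit.map (algebraMap A k)).ne_zero
    rw [ha, mul_pow] at h
    have h2 : (algebraMap A k ϖ ^ l) ^ n = algebraMap A k ϖ ^ ((n : ℤ) * l) := by
      rw [mul_comm, zpow_mul, zpow_natCast]
    rw [h2] at h
    rw [Units.val_mul, Units.val_mul, Units.val_pow_eq_pow_val, map_mul, map_mul, map_pow, hinv,
      hinv, zpow_sub₀ hϖk, zpow_add₀ hϖk, inv_pow]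
    have h3 := hne t
    have h4 := pow_ne_zero n (hne v)
    have h5 : algebraMap A k ϖ ^ j ≠ 0 := zpow_ne_zero _ hϖk
    rw [div_eq_iff h5]
    field_simp
    linear_combination h
  have h2 := zpow_unit_eq ϖ hϖ _ (Units.isUnit _) _ h1
  have h3 : m = j - n * l := by linarith
  rw [h3]
  exact dvd_sub hj (Dvd.dvd.mul_right (by exact_mod_cast hMn) _)

/-- no roots in the residue field -/
lemma no_root (f : A[X]) (h : ∀ g : (IsLocalRing.ResidueField A)[X], Irreducible g →
    g ∣ f.map (IsLocalRing.residue A) → g.natDegree ≠ 1) (b : A) :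
    f.eval b ∉ IsLocalRing.maximalIdeal A := by
  intro hb
  have h1 : (f.map (IsLocalRing.residue A)).IsRoot (IsLocalRing.residue A b) := by
    rw [IsRoot.def, eval_map, eval₂_at_apply, IsLocalRing.residue_eq_zero_iff]
    exact hb
  refine h (X - C (IsLocalRing.residue A b)) (irreducible_X_sub_C _) (dvd_iff_isRoot.2 h1) ?_
  exact natDegree_X_sub_C _

end dvr

end Pool.Agent.K3h23.GF
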