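import Pool.Agent.TH120.Sec.Supply
import Pool.Agent.TH120.Sec.ExL

/-!
# Many primes of norm `1` modulo `n`
-/

set_option autoImplicit false

namespace Pool.Agent.K3h23.GF

open Polynomial NumberField IsDedekindDomain
open Pool.Agent.W401.Cheb Pool.Agent.TH120.Sec

universe u

/-- there are many primes `v` with `N v ≡ 1` modulo `n`, not containing `D` -/
theorem supply_n {K : Type u} [Field K] [NumberField K] (n : ℕ) (hn : 0 < n) (D : 𝓞 K)
    (hD : D ≠ 0) (δ : ℝ) (hδ : 0 < δ) (hδ1 : δ ≤ 1) (ε : ℝ) (hε : 0 < ε) :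
    ∃ T : Finset (HeightOneSpectrum (𝓞 K)),
      (∀ v ∈ T, D ∉ v.asIdeal ∧ n ∣ Ideal.absNorm v.asIdeal - 1) ∧
      ∏ v ∈ T, (1 - δ * (1 / (Ideal.absNorm v.asIdeal : ℝ) -
        1 / (Ideal.absNorm v.asIdeal : ℝ) ^ 2)) < ε := by
  classical
  have hM0 : (n : AlgebraicClosure K) ≠ 0 := Nat.cast_ne_zero.2 hn.ne'
  obtain ⟨ζ, hζ⟩ : ∃ ζ : AlgebraicClosure K, IsPrimitiveRoot ζ n := by
    have : NeZero (n : AlgebraicClosure K) := ⟨hM0⟩
    exact HasEnoughRootsOfUnity.exists_primitiveRoot (AlgebraicClosure K) n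
  obtain ⟨L, _, _, _, i, τ, κ, hκi, hκτ, hκs⟩ := exists_L K {ζ} (Set.finite_singleton ζ)
    AlgEquiv.refl
  obtain ⟨z, hz⟩ := hκs ζ rfl
  have hzM : z ^ n = 1 := by
    apply κ.injective
    rw [map_pow, hz, hζ.pow_eq_one, map_one]
  have hz1 : ∀ j ∈ Finset.Ioo 0 n, z ^ j ≠ 1 := by
    intro j hj h1
    rw [Finset.mem_Ioo] at hj
    have h2 : ζ ^ j = 1 := by rw [← hz, ← map_pow, h1, map_one]
    exact hζ.pow_ne_one_of_pos_of_lt hj.1.ne' hj.2 h2
  have hτ : ∀ x, τ x = x := by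
    intro x
    apply κ.injective
    rw [hκτ]
    rfl
  let iO : 𝓞 K →+* 𝓞 L := RingOfIntegers.mapRingHom i
  have hiO : ∀ x, ((iO x : 𝓞 L) : L) = i x := fun x => rfl
  have hiinj : Function.Injective iO := by
    intro x y hxy
    have h1 : (iO x : L) = iO y := by rw [hxy]
    rw [hiO, hiO] at h1
    exact RingOfIntegers.coe_injective (i.injective h1)
  have hzint : IsIntegral ℤ z := by
    refine IsIntegral.of_pow hn ?_
    rw [hzM]
    exact isIntegral_one
  let zO : 𝓞 L := ⟨z, hzint⟩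
  have hzO : ((zO : 𝓞 L) : L) = z := rfl
  have hzO1 : ∏ j ∈ Finset.Ioo 0 n, (zO ^ j - 1) ≠ 0 := by
    refine Finset.prod_ne_zero_iff.2 fun j hj h => ?_
    apply hz1 j hj
    have h1 : ((zO ^ j - 1 : 𝓞 L) : L) = 0 := by rw [h]; rfl
    have h2 : ((zO ^ j - 1 : 𝓞 L) : L) = z ^ j - 1 := rfl
    rw [h2] at h1
    exact sub_eq_zero.1 h1
  have hzOM : zO ^ n = 1 := by
    apply RingOfIntegers.coe_injective
    rw [map_pow, map_one]
    exact hzM
  refine supply i τ (fun x => hτ _) (iO D * ∏ j ∈ Finset.Ioo 0 n, (zO ^ j - 1)) (mul_ne_zero (by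
    rw [Ne, map_eq_zero_iff iO hiinj]
    exact hD) hzO1) _ ?_ δ hδ hδ1 ε hε
  intro p _ φ hφ hE v hv hnorm hψ
  rw [map_mul] at hE
  refine ⟨fun h => hE ?_, ?_⟩
  · rw [(hv D).1 h, zero_mul]
  · rw [hnorm]
    have h1 : φ zO ^ p = φ zO := by
      have h2 := hφ zO
      have h3 : τ • zO = zO := by
        apply RingOfIntegers.ext
        exact hτ z
      rw [h3] at h2
      exact h2.symm
    have h2 : φ zO ^ n = 1 := by rw [← map_pow, hzOM, map_one]
    have h3 : ∀ j, 0 < j → j < n → φ zO ^ j ≠ 1 := by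
      intro j hj hjn h
      apply hE
      rw [map_prod, Finset.prod_eq_zero (Finset.mem_Ioo.2 ⟨hj, hjn⟩), mul_zero]
      rw [map_sub, map_pow, map_one, h, sub_self]
    have h4 : φ zO ≠ 0 := by
      intro h
      rw [h, zero_pow hn.ne'] at h2
      exact zero_ne_one h2
    have hp := (Fact.out : p.Prime)
    have h5 : φ zO ^ (p - 1) = 1 := by
      have h6 : φ zO ^ (p - 1) * φ zO = 1 * φ zO := by
        rw [← pow_succ, Nat.sub_add_cancel hp.one_lt.le, h1, one_mul]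
      exact mul_right_cancel₀ h4 h6
    have h6 : orderOf (φ zO) = n := by
      rw [orderOf_eq_iff hn]
      exact ⟨h2, fun j hjn hj => h3 j hj hjn⟩
    rw [← h6]
    exact orderOf_dvd_of_pow_eq_one h5

end Pool.Agent.K3h23.GF
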